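import Mathlib
import Pool.Agent.Q91.Upper

/-!
# Assouad dimension of projections of a self-similar set in `ℝ³` to planes
-/

open Set Filter Topology MeasureTheory
open scoped ENNReal NNReal

namespace Pool.Agent.Results.MP_c72560_an.Projections

/-- `ℝ^d`. -/
abbrev E (d : ℕ) := EuclideanSpace ℝ (Fin d)

/-- The cube `[0, 1]^d`. -/
def cube (d : ℕ) : Set (E d) := {x | ∀ i, x i ∈ Icc (0 : ℝ) 1}

/-- `F ⊆ [0, 1]^d` is self-similar: the attractor of finitely many contracting similarities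
`x ↦ c i • O i x + t i` mapping the cube into itself. -/
def IsSelfSimilar (d : ℕ) (F : Set (E d)) : Prop :=
  ∃ (ι : Type) (_ : Fintype ι) (c : ι → ℝ) (O : ι → (E d ≃ₗᵢ[ℝ] E d)) (t : ι → E d),
    (∀ i, c i ∈ Ioo (0 : ℝ) 1) ∧ (∀ i, ∀ x ∈ cube d, c i • O i x + t i ∈ cube d) ∧
    F.Nonempty ∧ IsCompact F ∧ F ⊆ cube d ∧ F = ⋃ i, (fun x => c i • O i x + t i) '' F

/-- `A` can be covered by at most `n` sets of diameter at most `r`. -/
def CoversBy {X : Type*} [PseudoMetricSpace X] (A : Set X) (r : ℝ) (n : ℕ) : Prop :=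
  ∃ t : Finset (Set X), t.card ≤ n ∧ (∀ U ∈ t, Metric.ediam U ≤ ENNReal.ofReal r) ∧
    A ⊆ ⋃ U ∈ t, U

/-- There is `C > 0` with `N_r(B(x, R) ∩ F) ≤ C (R / r) ^ s` for all `R > 0`, `0 < r < R`,
`x ∈ F`. -/
def AssouadBound {X : Type*} [PseudoMetricSpace X] (F : Set X) (s : ℝ) : Prop :=
  ∃ C > 0, ∀ R > 0, ∀ r ∈ Ioo (0 : ℝ) R, ∀ x ∈ F,
    ∃ n : ℕ, CoversBy (Metric.ball x R ∩ F) r n ∧ (n : ℝ) ≤ C * (R / r) ^ s

/-- The Assouad dimension. -/
noncomputable def dimA {X : Type*} [PseudoMetricSpace X] (F : Set X) : ℝ≥0∞ :=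
  ⨅ (s : ℝ≥0) (_ : AssouadBound F s), (s : ℝ≥0∞)

/-- The orthogonal projection of `ℝ³` onto the plane orthogonal to the unit vector `w`. -/
noncomputable def proj (w : Metric.sphere (0 : E 3) 1) : E 3 → E 3 :=
  fun x => (Submodule.span ℝ {(w : E 3)})ᗮ.starProjection x

/-! ### Geometric series in base 16 -/

lemma hs16 : Summable fun n : ℕ => (1 / 16 : ℝ) ^ (n + 1) := by
  have := (summable_nat_add_iff 1).2
    (summable_geometric_of_lt_one (by norm_num : (0 : ℝ) ≤ 1 / 16) (by norm_num))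
  exact this

lemma ts16 : ∑' n : ℕ, (1 / 16 : ℝ) ^ (n + 1) = 1 / 15 := by
  have h : ∀ n : ℕ, (1 / 16 : ℝ) ^ (n + 1) = (1 / 16) * (1 / 16) ^ n := fun n => by ring
  simp_rw [h]
  rw [tsum_mul_left, tsum_geometric_of_lt_one (by norm_num) (by norm_num)]
  norm_num

/-- Value of a bounded sequence. -/
noncomputable def vs (δ : ℕ → ℝ) : ℝ := ∑' n : ℕ, (1 / 16 : ℝ) ^ (n + 1) * δ n

lemma vs_summable {δ : ℕ → ℝ} {B : ℝ} (h : ∀ n, |δ n| ≤ B) :
    Summable fun n : ℕ => (1 / 16 : ℝ) ^ (n + 1) * δ n := by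
  refine Summable.of_norm_bounded (g := fun n : ℕ => B * (1 / 16 : ℝ) ^ (n + 1)) (hs16.mul_left _)
    fun n => ?_
  rw [Real.norm_eq_abs, abs_mul, abs_of_pos (by positivity), mul_comm]
  exact mul_le_mul_of_nonneg_right (h n) (by positivity)

lemma abs_vs_le {δ : ℕ → ℝ} {B : ℝ} (h : ∀ n, |δ n| ≤ B) : |vs δ| ≤ B / 15 := by
  have hsum : HasSum (fun n : ℕ => B * (1 / 16 : ℝ) ^ (n + 1)) (B * (1 / 15)) := by
    rw [← ts16]
    exact hs16.hasSum.mul_left _
  have := tsum_of_norm_bounded hsum (f := fun n : ℕ => (1 / 16 : ℝ) ^ (n + 1) * δ n) fun n => by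
    rw [Real.norm_eq_abs, abs_mul, abs_of_pos (by positivity), mul_comm]
    exact mul_le_mul_of_nonneg_right (h n) (by positivity)
  rw [Real.norm_eq_abs] at this
  unfold vs
  linarith

lemma vs_shift {δ : ℕ → ℝ} {B : ℝ} (h : ∀ n, |δ n| ≤ B) {k : ℕ} (h0 : ∀ i < k, δ i = 0) :
    vs δ = (1 / 16) ^ k * vs fun n => δ (n + k) := by
  unfold vs
  rw [← (vs_summable h).sum_add_tsum_nat_add k, Finset.sum_eq_zero, zero_add, ← tsum_mul_left]
  · congr 1
    ext n
    rw [show n + k + 1 = k + (n + 1) by ring, pow_add]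
    ring
  · intro i hi
    rw [h0 i (Finset.mem_range.1 hi), mul_zero]

lemma vs_succ {δ : ℕ → ℝ} {B : ℝ} (h : ∀ n, |δ n| ≤ B) :
    vs δ = 1 / 16 * δ 0 + 1 / 16 * vs fun n => δ (n + 1) := by
  unfold vs
  rw [(vs_summable h).tsum_eq_zero_add, ← tsum_mul_left]
  congr 1
  · norm_num
  · congr 1
    ext n
    ring

/-- If all differences before `k` vanish then the value is small. -/
lemma abs_vs_le_of_zero {δ : ℕ → ℝ} {B : ℝ} (h : ∀ n, |δ n| ≤ B) {k : ℕ}
    (h0 : ∀ i < k, δ i = 0) : |vs δ| ≤ (1 / 16) ^ k * (B / 15) := by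
  rw [vs_shift h h0, abs_mul, abs_of_pos (by positivity)]
  exact mul_le_mul_of_nonneg_left (abs_vs_le fun n => h (n + k)) (by positivity)

/-- If the first nonzero difference is large then so is the value. -/
lemma le_abs_vs {δ : ℕ → ℝ} {B c : ℝ} (h : ∀ n, |δ n| ≤ B) {k : ℕ} (h0 : ∀ i < k, δ i = 0)
    (hk : c ≤ |δ k|) : (1 / 16) ^ (k + 1) * (c - B / 15) ≤ |vs δ| := by
  rw [vs_shift h h0, abs_mul, abs_of_pos (by positivity), vs_succ fun n => h (n + k), pow_succ,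
    mul_assoc]
  apply mul_le_mul_of_nonneg_left _ (by positivity)
  have h1 := abs_vs_le fun n => h (n + 1 + k)
  have h2 : |1 / 16 * δ (0 + k) + 1 / 16 * vs fun n => δ (n + 1 + k)|
      ≥ |1 / 16 * δ (0 + k)| - |1 / 16 * vs fun n => δ (n + 1 + k)| := by
    have := abs_sub_abs_le_abs_sub (1 / 16 * δ (0 + k)) (-(1 / 16 * vs fun n => δ (n + 1 + k)))
    rw [abs_neg, sub_neg_eq_add] at this
    exact this
  rw [abs_mul, abs_mul, abs_of_pos (by norm_num : (0 : ℝ) < 1 / 16)] at h2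
  rw [zero_add] at h2 ⊢
  linarith

/-! ### The number `τ` and the chains -/

/-- `τ = ∑ 16^{-4^j}`. -/
noncomputable def τ : ℝ := ∑' j : ℕ, (1 / 16 : ℝ) ^ (4 ^ j)

lemma four_pow_ge (j : ℕ) : j + 1 ≤ 4 ^ j := by
  induction j with
  | zero => norm_num
  | succ n ih => rw [pow_succ]; omega

lemma τ_summable : Summable fun j : ℕ => (1 / 16 : ℝ) ^ (4 ^ j) := by
  refine Summable.of_nonneg_of_le (fun j => by positivity) (fun j => ?_) hs16
  exact pow_le_pow_of_le_one (by norm_num) (by norm_num) (four_pow_ge j)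

lemma τ_nonneg : 0 ≤ τ := tsum_nonneg fun j => by positivity

lemma τ_le : τ ≤ 1 := by
  have : τ ≤ 1 / 15 := by
    rw [← ts16]
    exact τ_summable.tsum_le_tsum
      (fun j => pow_le_pow_of_le_one (by norm_num) (by norm_num) (four_pow_ge j)) hs16
  linarith

/-- The scaled remainders of `τ`. -/
lemma τ_rem (J : ℕ) : (16 : ℝ) ^ (4 ^ (J + 1)) *
    (τ - ∑ j ∈ Finset.range (J + 1), (1 / 16 : ℝ) ^ (4 ^ j)) ∈ Icc (1 : ℝ) 2 := by
  have h1 : τ - ∑ j ∈ Finset.range (J + 1), (1 / 16 : ℝ) ^ (4 ^ j)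
      = ∑' j : ℕ, (1 / 16 : ℝ) ^ (4 ^ (j + (J + 1))) := by
    unfold τ
    rw [← τ_summable.sum_add_tsum_nat_add (J + 1)]
    ring
  have hs : Summable fun j : ℕ => (1 / 16 : ℝ) ^ (4 ^ (j + (J + 1))) :=
    (summable_nat_add_iff (f := fun j : ℕ => (1 / 16 : ℝ) ^ (4 ^ j)) (J + 1)).2 τ_summable
  have hkey : ∀ j : ℕ, (16 : ℝ) ^ (4 ^ (J + 1)) * (1 / 16 : ℝ) ^ (4 ^ (j + (J + 1)))
      ≤ (1 / 16) ^ j := by
    intro j
    have h2 : 4 ^ (J + 1) + j ≤ 4 ^ (j + (J + 1)) := by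
      have h3 := four_pow_ge j
      have h4 : 1 ≤ 4 ^ (J + 1) := Nat.one_le_pow _ _ (by norm_num)
      calc 4 ^ (J + 1) + j ≤ 4 ^ (J + 1) + j * 4 ^ (J + 1) := by
            have : j * 1 ≤ j * 4 ^ (J + 1) := Nat.mul_le_mul_left _ h4
            omega
        _ = (j + 1) * 4 ^ (J + 1) := by ring
        _ ≤ 4 ^ j * 4 ^ (J + 1) := Nat.mul_le_mul_right _ h3
        _ = 4 ^ (j + (J + 1)) := by rw [pow_add 4 j (J + 1)]
    calc (16 : ℝ) ^ (4 ^ (J + 1)) * (1 / 16 : ℝ) ^ (4 ^ (j + (J + 1)))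
        ≤ (16 : ℝ) ^ (4 ^ (J + 1)) * (1 / 16 : ℝ) ^ (4 ^ (J + 1) + j) := by
          apply mul_le_mul_of_nonneg_left _ (by positivity)
          exact pow_le_pow_of_le_one (by norm_num) (by norm_num) h2
      _ = (1 / 16) ^ j := by
          rw [pow_add (1 / 16 : ℝ) (4 ^ (J + 1)) j, ← mul_assoc, ← mul_pow]
          norm_num
  rw [h1, ← tsum_mul_left]
  have hs' := hs.mul_left ((16 : ℝ) ^ (4 ^ (J + 1)))
  constructor
  · have h5 := hs'.le_tsum 0 fun j _ => by positivity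
    refine le_trans ?_ h5
    rw [zero_add, ← mul_pow]
    norm_num
  · calc ∑' j : ℕ, (16 : ℝ) ^ (4 ^ (J + 1)) * (1 / 16 : ℝ) ^ (4 ^ (j + (J + 1)))
        ≤ ∑' j : ℕ, (1 / 16 : ℝ) ^ j :=
          hs'.tsum_le_tsum hkey (summable_geometric_of_lt_one (by norm_num) (by norm_num))
      _ = (1 - 1 / 16)⁻¹ := tsum_geometric_of_lt_one (by norm_num) (by norm_num)
      _ ≤ 2 := by norm_num

section Chain

variable {G : Set ℝ} (h0 : (0 : ℝ) ∈ G) (hz : ∀ x ∈ G, x / 16 ∈ G) (ho : ∀ x ∈ G, (x + 1) / 16 ∈ G)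
  (hτ : ∀ x ∈ G, (x + τ) / 16 ∈ G)

include hz in
lemma zeros (n : ℕ) {x : ℝ} (hx : x ∈ G) : (1 / 16) ^ n * x ∈ G := by
  induction n with
  | zero => simpa using hx
  | succ n ih =>
    have := hz _ ih
    rw [pow_succ]
    convert this using 1
    ring

include hz ho in
lemma block_u (J : ℕ) : ∀ {x : ℝ}, x ∈ G → (1 / 16) ^ (4 ^ J + 1) * x
    + (1 / 16) * ∑ j ∈ Finset.range (J + 1), (1 / 16 : ℝ) ^ (4 ^ j) ∈ G := by
  induction J with
  | zero =>
    intro x hx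
    have := hz _ (ho x hx)
    convert this using 1
    simp
    ring
  | succ J ih =>
    intro x hx
    have h1 := zeros hz (4 ^ (J + 1) - 4 ^ J - 1) (ho x hx)
    have h2 := ih h1
    convert h2 using 1
    rw [Finset.sum_range_succ _ (J + 1)]
    have h4 : 4 ^ (J + 1) = 4 * 4 ^ J := by rw [pow_succ]; ring
    have h5 : 1 ≤ 4 ^ J := Nat.one_le_pow _ _ (by norm_num)
    have e : (1 / 16 : ℝ) ^ (4 ^ (J + 1)) = (1 / 16) ^ (4 ^ J + 1) *
        (1 / 16) ^ (4 ^ (J + 1) - 4 ^ J - 1) := by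
      rw [← pow_add]
      congr 1
      omega
    rw [pow_succ _ (4 ^ (J + 1)), e]
    ring

include h0 hz ho hτ in
/-- Long chains of almost equidistant points. -/
lemma chain (M : ℕ) : ∃ z : ℕ → ℝ, (∀ m < M, 1 / 16 ≤ z (m + 1) - z m ∧ z (m + 1) - z m ≤ 1 / 8) ∧
    ∀ m ≤ M, (1 / 16) ^ (4 ^ M) * z m ∈ G := by
  obtain ⟨su, hsu⟩ : ∃ su : ℕ → ℝ, su = fun J =>
      (1 / 16) * ∑ j ∈ Finset.range (J + 1), (1 / 16 : ℝ) ^ (4 ^ j) := ⟨_, rfl⟩
  obtain ⟨sh, hsh⟩ : ∃ sh : ℕ → ℕ → ℝ, sh = fun m J => if J < m then 1 / 16 * τ else su J :=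
    ⟨_, rfl⟩
  refine ⟨fun m => ∑ J ∈ Finset.range M, 16 ^ (4 ^ (J + 1)) * sh m J, fun m hm => ?_,
    fun m _ => ?_⟩
  · have e : ∑ J ∈ Finset.range M, (16 : ℝ) ^ (4 ^ (J + 1)) * sh (m + 1) J
        - ∑ J ∈ Finset.range M, (16 : ℝ) ^ (4 ^ (J + 1)) * sh m J
        = 16 ^ (4 ^ (m + 1)) * (1 / 16 * τ - su m) := by
      rw [← Finset.sum_sub_distrib, Finset.sum_eq_single m]
      · rw [hsh]
        simp only [lt_add_iff_pos_right, zero_lt_one, if_true, lt_irrefl, if_false]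
        ring
      · intro J _ hJ
        rw [hsh]
        simp only
        by_cases hc : J < m
        · rw [if_pos hc, if_pos (by omega)]; ring
        · rw [if_neg hc, if_neg (by omega)]; ring
      · intro h
        exact absurd (Finset.mem_range.2 hm) h
    have e2 : (16 : ℝ) ^ (4 ^ (m + 1)) * (1 / 16 * τ - su m) = 1 / 16 * (16 ^ (4 ^ (m + 1)) *
        (τ - ∑ j ∈ Finset.range (m + 1), (1 / 16 : ℝ) ^ (4 ^ j))) := by
      rw [hsu]; ring
    have h1 := τ_rem m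
    simp only
    rw [e, e2]
    constructor <;> linarith [h1.1, h1.2]
  · -- membership
    have key : ∀ N : ℕ, (1 / 16) ^ (4 ^ N) * ∑ J ∈ Finset.range N, 16 ^ (4 ^ (J + 1)) * sh m J
        ∈ G := by
      intro N
      induction N with
      | zero => simpa using h0
      | succ N ih =>
        have h1 := zeros hz (2 * 4 ^ N - 1) ih
        have h5 : 1 ≤ 4 ^ N := Nat.one_le_pow _ _ (by norm_num)
        have e3 : (1 / 16 : ℝ) ^ (4 ^ (N + 1)) = (1 / 16) ^ (4 ^ N + 1) *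
            ((1 / 16) ^ (2 * 4 ^ N - 1) * (1 / 16) ^ (4 ^ N)) := by
          rw [← pow_add, ← pow_add]
          congr 1
          have : 4 ^ (N + 1) = 4 * 4 ^ N := by rw [pow_succ]; ring
          omega
        have e4 : (1 / 16 : ℝ) ^ (4 ^ (N + 1)) * 16 ^ (4 ^ (N + 1)) = 1 := by
          rw [← mul_pow]; norm_num
        have e5 : (1 / 16 : ℝ) ^ (4 ^ (N + 1)) * ∑ J ∈ Finset.range (N + 1),
            16 ^ (4 ^ (J + 1)) * sh m J = (1 / 16) ^ (4 ^ N + 1) * ((1 / 16) ^ (2 * 4 ^ N - 1) *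
              ((1 / 16) ^ (4 ^ N) * ∑ J ∈ Finset.range N, 16 ^ (4 ^ (J + 1)) * sh m J))
            + sh m N := by
          rw [Finset.sum_range_succ, mul_add, ← mul_assoc _ _ (sh m N), e4, one_mul, e3]
          ring
        rw [e5]
        by_cases hc : N < m
        · have e6 : sh m N = 1 / 16 * τ := by rw [hsh]; simp only [if_pos hc]
          rw [e6]
          have h2 := hτ _ (zeros hz (4 ^ N) h1)
          convert h2 using 1
          rw [pow_succ _ (4 ^ N)]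
          ring
        · have e6 : sh m N = su N := by rw [hsh]; simp only [if_neg hc]
          rw [e6, hsu]
          exact block_u hz ho N h1
    exact key M

end Chain

/-! ### The self-similar set -/

/-- The index set of the twelve similarities. -/
abbrev I := Fin 3 × Fin 2 × Fin 2

/-- The digits `0, 1, τ` of the first coordinate. -/
noncomputable def av (i : Fin 3) : ℝ := ![0, 1, τ] i

/-- The digits `0, 1` of the other coordinates. -/
noncomputable def bv (i : Fin 2) : ℝ := ![0, 1] i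

lemma av_mem (i : Fin 3) : av i ∈ Icc (0 : ℝ) 1 := by
  fin_cases i
  · exact ⟨le_rfl, zero_le_one⟩
  · exact ⟨zero_le_one, le_rfl⟩
  · exact ⟨τ_nonneg, τ_le⟩

lemma bv_mem (i : Fin 2) : bv i ∈ Icc (0 : ℝ) 1 := by
  fin_cases i
  · exact ⟨le_rfl, zero_le_one⟩
  · exact ⟨zero_le_one, le_rfl⟩

lemma abs_sub_le_one {x y : ℝ} (hx : x ∈ Icc (0 : ℝ) 1) (hy : y ∈ Icc (0 : ℝ) 1) :
    |x - y| ≤ 1 := by
  rw [abs_le]
  constructor <;> linarith [hx.1, hx.2, hy.1, hy.2]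

lemma abs_le_one {x : ℝ} (hx : x ∈ Icc (0 : ℝ) 1) : |x| ≤ 1 := by
  rw [abs_of_nonneg hx.1]; exact hx.2

/-- The digit vectors. -/
noncomputable def dig (i : I) : E 3 := !₂[av i.1, bv i.2.1, bv i.2.2]

/-- The coding map. -/
noncomputable def pt (ω : ℕ → I) : E 3 :=
  !₂[vs fun n => av (ω n).1, vs fun n => bv (ω n).2.1, vs fun n => bv (ω n).2.2]

/-- The self-similar set. -/
def F : Set (E 3) := range pt

lemma pt0 (ω : ℕ → I) : pt ω 0 = vs fun n => av (ω n).1 := rfl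
lemma pt1 (ω : ℕ → I) : pt ω 1 = vs fun n => bv (ω n).2.1 := rfl
lemma pt2 (ω : ℕ → I) : pt ω 2 = vs fun n => bv (ω n).2.2 := rfl

lemma vs_mem {δ : ℕ → ℝ} (h : ∀ n, δ n ∈ Icc (0 : ℝ) 1) : vs δ ∈ Icc (0 : ℝ) (1 / 15) := by
  constructor
  · exact tsum_nonneg fun n => mul_nonneg (by positivity) (h n).1
  · exact (le_abs_self _).trans (abs_vs_le (B := 1) fun n => abs_le_one (h n))

lemma vs_sub {δ δ' : ℕ → ℝ} {B B' : ℝ} (h : ∀ n, |δ n| ≤ B) (h' : ∀ n, |δ' n| ≤ B') :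
    vs δ - vs δ' = vs fun n => δ n - δ' n := by
  unfold vs
  rw [← (vs_summable h).tsum_sub (vs_summable h')]
  congr 1
  ext n
  ring

lemma vs_add_mul {δ δ' : ℕ → ℝ} {B B' : ℝ} (b : ℝ) (h : ∀ n, |δ n| ≤ B) (h' : ∀ n, |δ' n| ≤ B') :
    vs δ + b * vs δ' = vs fun n => δ n + b * δ' n := by
  unfold vs
  rw [← tsum_mul_left, ← (vs_summable h).tsum_add ((vs_summable h').mul_left b)]
  congr 1
  ext n
  ring

lemma norm_le3 (v : E 3) : ‖v‖ ≤ |v 0| + |v 1| + |v 2| := by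
  rw [EuclideanSpace.norm_eq, Fin.sum_univ_three]
  apply Real.sqrt_le_iff.2
  refine ⟨by positivity, ?_⟩
  simp only [Real.norm_eq_abs]
  nlinarith [abs_nonneg (v 0), abs_nonneg (v 1), abs_nonneg (v 2),
    mul_nonneg (abs_nonneg (v 0)) (abs_nonneg (v 1)),
    mul_nonneg (abs_nonneg (v 0)) (abs_nonneg (v 2)),
    mul_nonneg (abs_nonneg (v 1)) (abs_nonneg (v 2))]

lemma pt_shift (ω : ℕ → I) :
    pt ω = (1 / 16 : ℝ) • pt (fun n => ω (n + 1)) + (1 / 16 : ℝ) • dig (ω 0) := by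
  ext j
  have h1 := vs_succ (δ := fun n => av (ω n).1) (B := 1) fun n => abs_le_one (av_mem _)
  have h2 := vs_succ (δ := fun n => bv (ω n).2.1) (B := 1) fun n => abs_le_one (bv_mem _)
  have h3 := vs_succ (δ := fun n => bv (ω n).2.2) (B := 1) fun n => abs_le_one (bv_mem _)
  fin_cases j
  · simp only [Fin.zero_eta, PiLp.add_apply, PiLp.smul_apply, smul_eq_mul, pt0]
    rw [h1]
    simp [dig]
    ring
  · simp only [Fin.mk_one, PiLp.add_apply, PiLp.smul_apply, smul_eq_mul, pt1]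
    rw [h2]
    simp [dig]
    ring
  · simp only [Fin.reduceFinMk, PiLp.add_apply, PiLp.smul_apply, smul_eq_mul, pt2]
    rw [h3]
    simp [dig]
    ring

lemma pt_cons (i : I) (ω : ℕ → I) :
    pt (fun n => if n = 0 then i else ω (n - 1)) = (1 / 16 : ℝ) • pt ω + (1 / 16 : ℝ) • dig i := by
  rw [pt_shift]
  simp

lemma vs_continuous {g : I → ℝ} (hg : ∀ i, |g i| ≤ 1) :
    Continuous fun ω : ℕ → I => vs fun n => g (ω n) := by
  unfold vs
  refine continuous_tsum (u := fun n : ℕ => (1 / 16 : ℝ) ^ (n + 1)) (fun n => ?_) hs16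
    fun n ω => ?_
  · exact continuous_const.mul (continuous_of_discreteTopology.comp (continuous_apply n))
  · rw [Real.norm_eq_abs, abs_mul, abs_of_pos (by positivity)]
    calc (1 / 16 : ℝ) ^ (n + 1) * |g (ω n)| ≤ (1 / 16 : ℝ) ^ (n + 1) * 1 :=
          mul_le_mul_of_nonneg_left (hg _) (by positivity)
      _ = _ := mul_one _

lemma pt_continuous : Continuous pt := by
  unfold pt
  refine (PiLp.continuous_toLp 2 _).comp (continuous_pi fun j => ?_)
  fin_cases j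
  · exact vs_continuous (g := fun i => av i.1) fun i => abs_le_one (av_mem _)
  · exact vs_continuous (g := fun i => bv i.2.1) fun i => abs_le_one (bv_mem _)
  · exact vs_continuous (g := fun i => bv i.2.2) fun i => abs_le_one (bv_mem _)

lemma dig_mem (i : I) (j : Fin 3) : dig i j ∈ Icc (0 : ℝ) 1 := by
  fin_cases j
  · exact av_mem _
  · exact bv_mem _
  · exact bv_mem _

lemma F_selfSimilar : IsSelfSimilar 3 F := by
  refine ⟨I, inferInstance, fun _ => 1 / 16, fun _ => LinearIsometryEquiv.refl ℝ (E 3),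
    fun i => (1 / 16 : ℝ) • dig i, fun _ => ⟨by norm_num, by norm_num⟩, ?_, range_nonempty pt,
    isCompact_range pt_continuous, ?_, ?_⟩
  · intro i x hx j
    have h1 := hx j
    have h2 := dig_mem i j
    simp only [LinearIsometryEquiv.coe_refl, id_eq, PiLp.add_apply, PiLp.smul_apply, smul_eq_mul]
    constructor <;> linarith [h1.1, h1.2, h2.1, h2.2]
  · rintro _ ⟨ω, rfl⟩ j
    have h : pt ω j ∈ Icc (0 : ℝ) (1 / 15) := by
      fin_cases j
      · exact vs_mem fun n => av_mem _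
      · exact vs_mem fun n => bv_mem _
      · exact vs_mem fun n => bv_mem _
    exact ⟨h.1, h.2.trans (by norm_num)⟩
  · apply Subset.antisymm
    · rintro _ ⟨ω, rfl⟩
      rw [mem_iUnion]
      exact ⟨ω 0, _, ⟨fun n => ω (n + 1), rfl⟩, (pt_shift ω).symm⟩
    · intro x hx
      rw [mem_iUnion] at hx
      obtain ⟨i, _, ⟨ω, rfl⟩, rfl⟩ := hx
      exact ⟨_, pt_cons i ω⟩

lemma F_step {x : E 3} (hx : x ∈ F) (i : I) : (1 / 16 : ℝ) • x + (1 / 16 : ℝ) • dig i ∈ F := by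
  obtain ⟨ω, rfl⟩ := hx
  exact ⟨_, pt_cons i ω⟩

/-- Points with the same first digits are close. -/
lemma pt_close {ω ω' : ℕ → I} {n : ℕ} (h : ∀ i < n, ω i = ω' i) :
    ‖pt ω - pt ω'‖ ≤ (1 / 16) ^ n := by
  refine (norm_le3 _).trans ?_
  have h0 : |(pt ω - pt ω') 0| ≤ (1 / 16) ^ n * (1 / 15) := by
    rw [PiLp.sub_apply, pt0, pt0, vs_sub (B := 1) (B' := 1) (fun n => abs_le_one (av_mem _))
      (fun n => abs_le_one (av_mem _))]
    refine abs_vs_le_of_zero (fun n => abs_sub_le_one (av_mem _) (av_mem _)) fun i hi => ?_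
    rw [h i hi, sub_self]
  have h1 : |(pt ω - pt ω') 1| ≤ (1 / 16) ^ n * (1 / 15) := by
    rw [PiLp.sub_apply, pt1, pt1, vs_sub (B := 1) (B' := 1) (fun n => abs_le_one (bv_mem _))
      (fun n => abs_le_one (bv_mem _))]
    refine abs_vs_le_of_zero (fun n => abs_sub_le_one (bv_mem _) (bv_mem _)) fun i hi => ?_
    rw [h i hi, sub_self]
  have h2 : |(pt ω - pt ω') 2| ≤ (1 / 16) ^ n * (1 / 15) := by
    rw [PiLp.sub_apply, pt2, pt2, vs_sub (B := 1) (B' := 1) (fun n => abs_le_one (bv_mem _))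
      (fun n => abs_le_one (bv_mem _))]
    refine abs_vs_le_of_zero (fun n => abs_sub_le_one (bv_mem _) (bv_mem _)) fun i hi => ?_
    rw [h i hi, sub_self]
  have : (0 : ℝ) < (1 / 16) ^ n := by positivity
  linarith

lemma dimH_F : dimH F ≤ ENNReal.ofReal (9 / 10) := by
  refine Q91.Upper.dimH_le_of_card (C := 1) (by norm_num) (ι := fun n => Fin n → I)
    (fun n w => {x | ∃ ω : ℕ → I, (∀ i : Fin n, ω i = w i) ∧ pt ω = x})
    (fun n => (1 / 16) ^ n) (fun n => by positivity)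
    (tendsto_pow_atTop_nhds_zero_of_lt_one (by norm_num) (by norm_num)) ?_ ?_ ?_
  · rintro n _ ⟨ω, rfl⟩
    exact mem_iUnion.2 ⟨fun i => ω i, ω, fun i => rfl, rfl⟩
  · intro n w
    apply Metric.ediam_le
    rintro _ ⟨ω, hω, rfl⟩ _ ⟨ω', hω', rfl⟩
    rw [edist_dist, dist_eq_norm]
    apply ENNReal.ofReal_le_ofReal
    apply pt_close
    intro i hi
    rw [hω ⟨i, hi⟩, hω' ⟨i, hi⟩]
  · intro n
    rw [Fintype.card_fun, Fintype.card_prod, Fintype.card_prod, Fintype.card_fin, Fintype.card_fin,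
      Fintype.card_fin]
    have h1 : (((1 / 16 : ℝ)) ^ n) ^ (9 / 10 : ℝ) = ((1 / 16 : ℝ) ^ (9 / 10 : ℝ)) ^ n := by
      rw [← Real.rpow_natCast, ← Real.rpow_natCast, ← Real.rpow_mul (by norm_num),
        ← Real.rpow_mul (by norm_num), mul_comm]
    have h2 : (1 / 16 : ℝ) ^ (9 / 10 : ℝ) ≤ 1 / 12 := by
      have h3 : ((1 / 16 : ℝ) ^ (9 / 10 : ℝ)) ^ 10 ≤ (1 / 12) ^ 10 := by
        rw [← Real.rpow_natCast, ← Real.rpow_mul (by norm_num)]
        have : (9 / 10 : ℝ) * ((10 : ℕ) : ℝ) = ((9 : ℕ) : ℝ) := by norm_num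
        rw [this, Real.rpow_natCast]
        norm_num
      exact le_of_pow_le_pow_left₀ (by norm_num) (by norm_num) h3
    rw [h1]
    have h4 : (0 : ℝ) ≤ (1 / 16 : ℝ) ^ (9 / 10 : ℝ) := by positivity
    calc (((3 * (2 * 2)) ^ n : ℕ) : ℝ) * ((1 / 16 : ℝ) ^ (9 / 10 : ℝ)) ^ n
        = (12 * (1 / 16 : ℝ) ^ (9 / 10 : ℝ)) ^ n := by
          push_cast
          rw [← mul_pow]
      _ ≤ 1 ^ n := by
          apply pow_le_pow_left₀ (by positivity)
          linarith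
      _ = 1 := one_pow n

/-! ### The lower bound for the Assouad dimension -/

/-- The first unit vector. -/
noncomputable def e₁ : E 3 := !₂[1, 0, 0]

/-- The section of `F` by the first axis. -/
def G : Set ℝ := {x | x • e₁ ∈ F}

lemma G_zero : (0 : ℝ) ∈ G := by
  refine ⟨fun _ => (0, 0, 0), ?_⟩
  ext j
  fin_cases j <;> simp [pt, vs, av, bv]

lemma G_step {x : ℝ} (hx : x ∈ G) (a : Fin 3) : (x + av a) / 16 ∈ G := by
  have h := F_step (show x • e₁ ∈ F from hx) (a, 0, 0)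
  have e : ((x + av a) / 16) • e₁ = (1 / 16 : ℝ) • (x • e₁) + (1 / 16 : ℝ) • dig (a, 0, 0) := by
    ext j
    fin_cases j
    · simp [e₁, dig]; ring
    · simp [e₁, dig, bv]
    · simp [e₁, dig, bv]
  change ((x + av a) / 16) • e₁ ∈ F
  rw [e]
  exact h

lemma G_chain (M : ℕ) : ∃ z : ℕ → ℝ,
    (∀ m < M, 1 / 16 ≤ z (m + 1) - z m ∧ z (m + 1) - z m ≤ 1 / 8) ∧
    ∀ m ≤ M, (1 / 16) ^ (4 ^ M) * z m ∈ G := by
  apply chain G_zero
  · intro x hx
    have := G_step hx 0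
    simpa [av] using this
  · intro x hx
    have := G_step hx 1
    simpa [av] using this
  · intro x hx
    have := G_step hx 2
    simpa [av] using this

lemma chain_bounds {z : ℕ → ℝ} {M : ℕ}
    (hz : ∀ m < M, 1 / 16 ≤ z (m + 1) - z m ∧ z (m + 1) - z m ≤ 1 / 8) (m : ℕ) :
    ∀ l, m + l ≤ M → 1 / 16 * (l : ℝ) ≤ z (m + l) - z m ∧ z (m + l) - z m ≤ 1 / 8 * l := by
  intro l
  induction l with
  | zero => intro _; simp
  | succ l ih =>
    intro h
    have h1 := ih (by omega)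
    have h2 := hz (m + l) (by omega)
    rw [← add_assoc]
    push_cast
    constructor <;> linarith [h1.1, h1.2, h2.1, h2.2]

lemma lower {w : Metric.sphere (0 : E 3) 1} (hw : proj w e₁ ≠ 0) {s : ℝ≥0}
    (hs : AssouadBound (proj w '' F) s) : 1 ≤ s := by
  by_contra hlt
  push Not at hlt
  have hs1 : (s : ℝ) < 1 := hlt
  obtain ⟨C, hC, hb⟩ := hs
  have hc1 : 0 < ‖proj w e₁‖ := norm_pos_iff.2 hw
  have hlin : ∀ x : ℝ, proj w (x • e₁) = x • proj w e₁ := fun x => by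
    unfold proj; rw [map_smul]
  have key : ∀ M : ℕ, ((M : ℝ) + 1) ≤ C * (4 * (M + 1)) ^ (s : ℝ) := by
    intro M
    obtain ⟨z, hz1, hz2⟩ := G_chain M
    obtain ⟨σ, hσ⟩ : ∃ σ : ℝ, σ = (1 / 16) ^ (4 ^ M) := ⟨_, rfl⟩
    have hσ0 : 0 < σ := by rw [hσ]; positivity
    rw [← hσ] at hz2
    obtain ⟨δ, hδ⟩ : ∃ δ, δ = σ * ‖proj w e₁‖ / 16 := ⟨_, rfl⟩
    have hδ0 : 0 < δ := by rw [hδ]; positivity
    obtain ⟨q, hq⟩ : ∃ q : ℕ → E 3, q = fun m => proj w ((σ * z m) • e₁) := ⟨_, rfl⟩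
    have hqF : ∀ m ≤ M, q m ∈ proj w '' F := fun m hm => by
      rw [hq]; exact ⟨_, hz2 m hm, rfl⟩
    have hdist : ∀ m l, m + l ≤ M → δ * l ≤ dist (q (m + l)) (q m) ∧
        dist (q (m + l)) (q m) ≤ 2 * δ * l := by
      intro m l h
      have h1 := chain_bounds hz1 m l h
      have h0 : (0 : ℝ) ≤ l := Nat.cast_nonneg _
      have e : dist (q (m + l)) (q m) = σ * ‖proj w e₁‖ * (z (m + l) - z m) := by
        rw [hq]
        simp only
        rw [hlin, hlin, dist_eq_norm, ← sub_smul, norm_smul, Real.norm_eq_abs, ← mul_sub, abs_mul,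
          abs_of_pos hσ0, abs_of_nonneg (by linarith [h1.1])]
        ring
      rw [e, hδ]
      have h3 : 0 < σ * ‖proj w e₁‖ := by positivity
      constructor
      · calc σ * ‖proj w e₁‖ / 16 * l = σ * ‖proj w e₁‖ * (1 / 16 * l) := by ring
          _ ≤ _ := mul_le_mul_of_nonneg_left h1.1 h3.le
      · calc σ * ‖proj w e₁‖ * (z (m + l) - z m) ≤ σ * ‖proj w e₁‖ * (1 / 8 * l) :=
              mul_le_mul_of_nonneg_left h1.2 h3.le
          _ = _ := by ring
    have hM0 : (0 : ℝ) ≤ M := Nat.cast_nonneg _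
    obtain ⟨n, ⟨t, htn, htd, htc⟩, hn⟩ := hb (2 * δ * (M + 1)) (by positivity) (δ / 2)
      ⟨by positivity, by nlinarith⟩ (q 0) (hqF 0 (by omega))
    have hRr : 2 * δ * (M + 1) / (δ / 2) = 4 * (M + 1) := by field_simp; ring
    rw [hRr] at hn
    refine le_trans ?_ hn
    -- pigeonhole
    have hex : ∀ m : Fin (M + 1), ∃ U ∈ t, q m ∈ U := by
      intro m
      have hm := m.2
      have h1 : q m ∈ Metric.ball (q 0) (2 * δ * (M + 1)) ∩ proj w '' F := by
        refine ⟨?_, hqF _ (by omega)⟩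
        rw [Metric.mem_ball]
        have := (hdist 0 m (by omega)).2
        rw [zero_add] at this
        have h2 : ((m : ℕ) : ℝ) ≤ M := by exact_mod_cast (by omega : (m : ℕ) ≤ M)
        have h3 : 2 * δ * ((m : ℕ) : ℝ) < 2 * δ * (M + 1) :=
          mul_lt_mul_of_pos_left (by linarith) (by positivity)
        linarith
      have h2 := htc h1
      rw [mem_iUnion₂] at h2
      obtain ⟨U, hU, hqU⟩ := h2
      exact ⟨U, hU, hqU⟩
    choose f hf1 hf2 using hex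
    have hinj : Function.Injective f := by
      have hlt' : ∀ m m' : Fin (M + 1), m < m' → f m ≠ f m' := by
        intro m m' hmm heq
        have h1 := Metric.edist_le_ediam_of_mem (hf2 m') (heq ▸ hf2 m)
        have h2 := h1.trans (htd _ (hf1 m'))
        rw [edist_dist, ENNReal.ofReal_le_ofReal_iff (by positivity)] at h2
        have hm' := m'.2
        have hmm' : (m : ℕ) < m' := hmm
        have h3 := (hdist m (m' - m) (by omega)).1
        rw [Nat.add_sub_cancel' hmm'.le] at h3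
        have h4 : (1 : ℝ) ≤ ((m' - m : ℕ) : ℝ) := by exact_mod_cast (by omega : 1 ≤ (m' : ℕ) - m)
        nlinarith
      intro m m' h
      rcases lt_trichotomy m m' with h1 | h1 | h1
      · exact absurd h (hlt' _ _ h1)
      · exact h1
      · exact absurd h.symm (hlt' _ _ h1)
    have hcard : M + 1 ≤ t.card := by
      have := Finset.card_le_card_of_injOn (s := Finset.univ) (t := t) f
        (fun m _ => by simpa using hf1 m) (fun a _ b _ h => hinj h)
      simpa using this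
    exact_mod_cast hcard.trans htn
  -- contradiction
  have hlim : Tendsto (fun x : ℝ => x ^ (1 - (s : ℝ))) atTop atTop :=
    tendsto_rpow_atTop (by linarith)
  obtain ⟨x₀, hx₀⟩ := (hlim.eventually_gt_atTop (C * 4 ^ (s : ℝ))).exists_forall_of_atTop
  obtain ⟨M, hM⟩ := exists_nat_ge x₀
  have h1 := hx₀ ((M : ℝ) + 1) (by linarith)
  have h2 := key M
  have hMp : (0 : ℝ) < (M : ℝ) + 1 := by positivity
  rw [Real.mul_rpow (by norm_num) hMp.le, ← mul_assoc] at h2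
  have h3 : (0 : ℝ) < ((M : ℝ) + 1) ^ (s : ℝ) := Real.rpow_pos_of_pos hMp _
  have h4 : C * 4 ^ (s : ℝ) * ((M : ℝ) + 1) ^ (s : ℝ)
      < ((M : ℝ) + 1) ^ (1 - (s : ℝ)) * ((M : ℝ) + 1) ^ (s : ℝ) :=
    mul_lt_mul_of_pos_right h1 h3
  rw [← Real.rpow_add hMp, sub_add_cancel, Real.rpow_one] at h4
  linarith

/-! ### The upper bound for the Assouad dimension -/

lemma proj_self (w : Metric.sphere (0 : E 3) 1) : proj w (w : E 3) = 0 := by
  unfold proj
  exact Submodule.starProjection_orthogonalComplement_singleton_eq_zero (w : E 3)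

lemma proj_sub (w : Metric.sphere (0 : E 3) 1) (x y : E 3) :
    proj w (x - y) = proj w x - proj w y := by
  unfold proj; rw [map_sub]

lemma proj_smul (w : Metric.sphere (0 : E 3) 1) (c : ℝ) (x : E 3) :
    proj w (c • x) = c • proj w x := by
  unfold proj; rw [map_smul]

lemma norm_proj_le (w : Metric.sphere (0 : E 3) 1) (x : E 3) : ‖proj w x‖ ≤ ‖x‖ :=
  Submodule.norm_starProjection_apply_le _ x

lemma exists_smul (w : Metric.sphere (0 : E 3) 1) (x : E 3) :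
    ∃ c : ℝ, x = c • (w : E 3) + proj w x := by
  have h := Submodule.sub_starProjection_mem_orthogonal (K := (Submodule.span ℝ {(w : E 3)})ᗮ) x
  rw [Submodule.orthogonal_orthogonal, Submodule.mem_span_singleton] at h
  obtain ⟨c, hc⟩ := h
  refine ⟨c, ?_⟩
  unfold proj
  rw [hc, sub_add_cancel]

/-- The first coordinate of the projection along `w`. -/
noncomputable def gf (α : ℝ) (v : E 3) : ℝ := v 0 - α * v 2

/-- The second coordinate of the projection along `w`. -/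
noncomputable def hf (b : ℝ) (v : E 3) : ℝ := v 1 + b * v 2

lemma gf_sub (α : ℝ) (u v : E 3) : gf α (u - v) = gf α u - gf α v := by
  simp only [gf, PiLp.sub_apply]; ring

lemma hf_sub (b : ℝ) (u v : E 3) : hf b (u - v) = hf b u - hf b v := by
  simp only [hf, PiLp.sub_apply]; ring

lemma norm_proj_le' {w : Metric.sphere (0 : E 3) 1} {α b : ℝ} (hw2 : (w : E 3) 2 ≠ 0)
    (hα : (w : E 3) 0 = α * (w : E 3) 2) (hb : (w : E 3) 1 = -b * (w : E 3) 2) (v : E 3) :
    ‖proj w v‖ ≤ |gf α v| + |hf b v| := by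
  have e : proj w v = proj w (v - (v 2 / (w : E 3) 2) • (w : E 3)) := by
    rw [proj_sub, proj_smul, proj_self, smul_zero, sub_zero]
  rw [e]
  refine (norm_proj_le w _).trans ((norm_le3 _).trans (le_of_eq ?_))
  simp only [PiLp.sub_apply, PiLp.smul_apply, smul_eq_mul]
  have e0 : v 0 - v 2 / (w : E 3) 2 * (w : E 3) 0 = gf α v := by
    rw [hα, gf]; field_simp
  have e1 : v 1 - v 2 / (w : E 3) 2 * (w : E 3) 1 = hf b v := by
    rw [hb, hf]; field_simp; ring
  have e2 : v 2 - v 2 / (w : E 3) 2 * (w : E 3) 2 = 0 := by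
    field_simp; ring
  rw [e0, e1, e2, abs_zero, add_zero]

lemma abs_hf_le {w : Metric.sphere (0 : E 3) 1} {b : ℝ} (hb : (w : E 3) 1 = -b * (w : E 3) 2)
    (hb0 : 0 ≤ b) (hb1 : b ≤ 1) (v : E 3) : |hf b v| ≤ 2 * ‖proj w v‖ := by
  obtain ⟨c, hc⟩ := exists_smul w v
  have e : hf b v = hf b (proj w v) := by
    conv_lhs => rw [hc]
    simp only [hf, PiLp.add_apply, PiLp.smul_apply, smul_eq_mul, hb]
    ring
  rw [e, hf]
  have h1 : |proj w v 1| ≤ ‖proj w v‖ := PiLp.norm_apply_le (proj w v) 1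
  have h2 : |proj w v 2| ≤ ‖proj w v‖ := PiLp.norm_apply_le (proj w v) 2
  refine (abs_add_le _ _).trans ?_
  rw [abs_mul, abs_of_nonneg hb0]
  have : b * |proj w v 2| ≤ 1 * ‖proj w v‖ := mul_le_mul hb1 h2 (abs_nonneg _) zero_le_one
  linarith

lemma abs_gf_le {w : Metric.sphere (0 : E 3) 1} {α : ℝ} (hα : (w : E 3) 0 = α * (w : E 3) 2)
    (v : E 3) : |gf α v| ≤ (1 + |α|) * ‖proj w v‖ := by
  obtain ⟨c, hc⟩ := exists_smul w v
  have e : gf α v = gf α (proj w v) := by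
    conv_lhs => rw [hc]
    simp only [gf, PiLp.add_apply, PiLp.smul_apply, smul_eq_mul, hα]
    ring
  rw [e, gf]
  have h1 : |proj w v 0| ≤ ‖proj w v‖ := PiLp.norm_apply_le (proj w v) 0
  have h2 : |proj w v 2| ≤ ‖proj w v‖ := PiLp.norm_apply_le (proj w v) 2
  refine (abs_sub _ _).trans ?_
  rw [abs_mul]
  have : |α| * |proj w v 2| ≤ |α| * ‖proj w v‖ := mul_le_mul_of_nonneg_left h2 (abs_nonneg _)
  linarith

lemma scales {R r : ℝ} (hr : 0 < r) (hrR : r < R) : ∃ n m : ℕ, n ≤ m ∧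
    (n = 0 ∨ 12 * R ≤ (1 / 16) ^ n) ∧ (1 / 16) ^ m ≤ 4 * r ∧
    (4 : ℝ) ^ (m - n) ≤ 28 * Real.sqrt (R / r) := by
  have hR : 0 < R := hr.trans hrR
  obtain ⟨n, hn1, hn2⟩ : ∃ n : ℕ, (n = 0 ∨ 12 * R ≤ (1 / 16) ^ n) ∧ (1 / 16) ^ n ≤ 192 * R := by
    rcases le_or_gt (1 / 12) R with h | h
    · exact ⟨0, Or.inl rfl, by rw [pow_zero]; linarith⟩
    · obtain ⟨n, h1, h2⟩ := exists_nat_pow_near_of_lt_one (x := 12 * R) (y := 1 / 16) (by linarith)
        (by linarith) (by norm_num) (by norm_num)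
      refine ⟨n, Or.inr h2, ?_⟩
      rw [pow_succ] at h1
      linarith
  have hone : 1 ≤ Real.sqrt (R / r) := by
    rw [Real.one_le_sqrt, le_div_iff₀ hr]
    linarith
  rcases le_or_gt ((1 / 16 : ℝ) ^ n) (4 * r) with h | h
  · refine ⟨n, n, le_rfl, hn1, h, ?_⟩
    rw [Nat.sub_self, pow_zero]
    linarith
  · have h16 : (1 / 16 : ℝ) ^ n ≤ 1 := pow_le_one₀ (by norm_num) (by norm_num)
    obtain ⟨k, h1, h2⟩ := exists_nat_pow_near_of_lt_one (x := 4 * r) (y := 1 / 16) (by linarith)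
        (by linarith) (by norm_num) (by norm_num)
    have hnk : n < k + 1 := by
      by_contra hc
      push Not at hc
      have : (1 / 16 : ℝ) ^ n ≤ (1 / 16) ^ (k + 1) :=
        pow_le_pow_of_le_one (by norm_num) (by norm_num) hc
      linarith
    refine ⟨n, k + 1, hnk.le, hn1, h1.le, ?_⟩
    have h3 : ((4 : ℝ) ^ (k + 1 - n)) ^ 2 ≤ 768 * (R / r) := by
      have e1 : ((4 : ℝ) ^ (k + 1 - n)) ^ 2 = 16 ^ (k + 1 - n) := by
        rw [← pow_mul, mul_comm, pow_mul]; norm_num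
      have e2 : (16 : ℝ) ^ (k + 1 - n) * (1 / 16) ^ (k + 1) = (1 / 16) ^ n := by
        have : (1 / 16 : ℝ) ^ (k + 1) = (1 / 16) ^ (k + 1 - n) * (1 / 16) ^ n := by
          rw [← pow_add]; congr 1; omega
        rw [this, ← mul_assoc, ← mul_pow]
        norm_num
      rw [e1, mul_div_assoc', le_div_iff₀ hr]
      have h4 : r / 4 ≤ (1 / 16 : ℝ) ^ (k + 1) := by rw [pow_succ]; linarith
      have h5 : (16 : ℝ) ^ (k + 1 - n) * (r / 4) ≤ 16 ^ (k + 1 - n) * (1 / 16) ^ (k + 1) :=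
        mul_le_mul_of_nonneg_left h4 (by positivity)
      linarith
    have h6 : (28 * Real.sqrt (R / r)) ^ 2 = 784 * (R / r) := by
      rw [mul_pow, Real.sq_sqrt (by positivity)]; norm_num
    have h7 : 0 < R / r := by positivity
    apply le_of_sq_le_sq _ (by positivity)
    rw [h6]
    linarith

section Upper

variable {b : ℝ}

/-- The digits of the second coordinate. -/
noncomputable def dv (b : ℝ) (j : Fin 2 × Fin 2) : ℝ := bv j.1 + b * bv j.2

lemma dv_sub_le (hb0 : 3 / 10 ≤ b) (hb1 : b ≤ 7 / 10) (j j' : Fin 2 × Fin 2) :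
    |dv b j - dv b j'| ≤ 17 / 10 := by
  have h1 := bv_mem j.1
  have h2 := bv_mem j.2
  have h3 := bv_mem j'.1
  have h4 := bv_mem j'.2
  have h5 := mul_nonneg (by linarith : 0 ≤ b) h2.1
  have h6 := mul_nonneg (by linarith : 0 ≤ b) h4.1
  have h7 := mul_le_mul hb1 h2.2 h2.1 (by norm_num)
  have h8 := mul_le_mul hb1 h4.2 h4.1 (by norm_num)
  unfold dv
  rw [abs_le]
  constructor <;> linarith [h1.1, h1.2, h3.1, h3.2]

lemma le_dv_sub (hb0 : 3 / 10 ≤ b) (hb1 : b ≤ 7 / 10) {j j' : Fin 2 × Fin 2} (h : j ≠ j') :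
    3 / 10 ≤ |dv b j - dv b j'| := by
  obtain ⟨x, y⟩ := j
  obtain ⟨x', y'⟩ := j'
  rw [le_abs]
  fin_cases x <;> fin_cases y <;> fin_cases x' <;> fin_cases y' <;>
    first
    | exact absurd rfl h
    | (left; simp [dv, bv]; linarith)
    | (right; simp [dv, bv]; linarith)

lemma hf_pt (ω : ℕ → I) : hf b (pt ω) = vs fun n => dv b (ω n).2 := by
  rw [hf, pt1, pt2]
  exact vs_add_mul (B := 1) (B' := 1) b (fun n => abs_le_one (bv_mem _))
    fun n => abs_le_one (bv_mem _)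

lemma dv_abs_le (hb0 : 3 / 10 ≤ b) (hb1 : b ≤ 7 / 10) (j : Fin 2 × Fin 2) :
    |dv b j| ≤ 17 / 10 := by
  have := dv_sub_le hb0 hb1 j (0, 0)
  have e : dv b (0, 0) = 0 := by simp [dv, bv]
  rwa [e, sub_zero] at this

lemma agree (hb0 : 3 / 10 ≤ b) (hb1 : b ≤ 7 / 10) {ω ω' : ℕ → I} {n : ℕ}
    (h : |hf b (pt ω) - hf b (pt ω')| < (1 / 16) ^ n / 6) : ∀ i < n, (ω i).2 = (ω' i).2 := by
  by_contra hcon
  push Not at hcon
  have hex : ∃ i, i < n ∧ (ω i).2 ≠ (ω' i).2 := hcon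
  classical
  have hk := Nat.find_spec hex
  have hmin : ∀ i < Nat.find hex, (ω i).2 = (ω' i).2 := by
    intro i hi
    by_contra hne
    exact Nat.find_min hex hi ⟨hi.trans hk.1, hne⟩
  rw [hf_pt, hf_pt, vs_sub (B := 17 / 10) (B' := 17 / 10) (fun n => dv_abs_le hb0 hb1 _)
    (fun n => dv_abs_le hb0 hb1 _)] at h
  have h1 := le_abs_vs (δ := fun n => dv b (ω n).2 - dv b (ω' n).2) (B := 17 / 10) (c := 3 / 10)
    (fun n => dv_sub_le hb0 hb1 _ _) (k := Nat.find hex)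
    (fun i hi => by rw [hmin i hi, sub_self]) (le_dv_sub hb0 hb1 hk.2)
  have h2 : (1 / 16 : ℝ) ^ n ≤ (1 / 16) ^ (Nat.find hex + 1) :=
    pow_le_pow_of_le_one (by norm_num) (by norm_num) hk.1
  have h3 : (0 : ℝ) < (1 / 16) ^ n := by positivity
  linarith

lemma hf_close (hb0 : 3 / 10 ≤ b) (hb1 : b ≤ 7 / 10) {ω ω' : ℕ → I} {m : ℕ}
    (h : ∀ i < m, (ω i).2 = (ω' i).2) :
    |hf b (pt ω) - hf b (pt ω')| ≤ (1 / 16) ^ m * (17 / 150) := by
  rw [hf_pt, hf_pt, vs_sub (B := 17 / 10) (B' := 17 / 10) (fun n => dv_abs_le hb0 hb1 _)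
    (fun n => dv_abs_le hb0 hb1 _)]
  refine (abs_vs_le_of_zero (B := 17 / 10) (fun n => dv_sub_le hb0 hb1 _ _)
    fun i hi => by rw [h i hi, sub_self]).trans (le_of_eq ?_)
  norm_num

end Upper

lemma upper {w : Metric.sphere (0 : E 3) 1} {α b : ℝ} (hw2 : (w : E 3) 2 ≠ 0)
    (hα : (w : E 3) 0 = α * (w : E 3) 2) (hb : (w : E 3) 1 = -b * (w : E 3) 2)
    (hb0 : 3 / 10 ≤ b) (hb1 : b ≤ 7 / 10) : AssouadBound (proj w '' F) ((3 / 2 : ℝ≥0) : ℝ) := by
  classical
  obtain ⟨A, hA⟩ : ∃ A, A = 1 + |α| := ⟨_, rfl⟩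
  have hA0 : 0 < A := by rw [hA]; positivity
  refine ⟨28 * (4 * A + 2), by positivity, fun R hR r hr x hx => ?_⟩
  obtain ⟨_, ⟨ω₀, rfl⟩, rfl⟩ := hx
  obtain ⟨hr0, hrR⟩ := hr
  obtain ⟨n, m, hnm, hn, hm, hcount⟩ := scales hr0 hrR
  -- the covering sets
  obtain ⟨U, hU⟩ : ∃ U : (Fin (m - n) → Fin 2 × Fin 2) × ℤ → Set (E 3), U = fun vj =>
      {y | ∃ ω : ℕ → I, proj w (pt ω) = y ∧ (∀ i < n, (ω i).2 = (ω₀ i).2) ∧
        (∀ i : Fin (m - n), (ω (n + i)).2 = vj.1 i) ∧ ⌊gf α (pt ω) / (r / 2)⌋ = vj.2} := ⟨_, rfl⟩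
  obtain ⟨j₀, hj₀⟩ : ∃ j₀, j₀ = ⌊(gf α (pt ω₀) - A * R) / (r / 2)⌋ := ⟨_, rfl⟩
  obtain ⟨j₁, hj₁⟩ : ∃ j₁, j₁ = ⌊(gf α (pt ω₀) + A * R) / (r / 2)⌋ := ⟨_, rfl⟩
  obtain ⟨t, ht⟩ : ∃ t : Finset (Set (E 3)), t = ((Finset.univ ×ˢ Finset.Icc j₀ j₁).image U) :=
    ⟨_, rfl⟩
  refine ⟨t.card, ⟨t, le_rfl, ?_, ?_⟩, ?_⟩
  · -- diameters
    intro V hV
    rw [ht, Finset.mem_image] at hV
    obtain ⟨⟨v, j⟩, -, rfl⟩ := hV
    apply Metric.ediam_le
    intro y hy y' hy'
    rw [hU] at hy hy'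
    obtain ⟨ω, rfl, h1, h2, h3⟩ := hy
    obtain ⟨ω', rfl, h1', h2', h3'⟩ := hy'
    rw [edist_dist, dist_eq_norm, ← proj_sub]
    apply ENNReal.ofReal_le_ofReal
    refine (norm_proj_le' hw2 hα hb _).trans ?_
    rw [gf_sub, hf_sub]
    have h4 : |hf b (pt ω) - hf b (pt ω')| ≤ (1 / 16) ^ m * (17 / 150) := by
      apply hf_close hb0 hb1
      intro i hi
      rcases lt_or_ge i n with h | h
      · rw [h1 i h, h1' i h]
      · have e1 := h2 ⟨i - n, by omega⟩
        have e2 := h2' ⟨i - n, by omega⟩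
        simp only [Nat.add_sub_cancel' h] at e1 e2
        rw [e1, e2]
    have h5 : |gf α (pt ω) - gf α (pt ω')| ≤ r / 2 := by
      have h6 := Int.abs_sub_lt_one_of_floor_eq_floor (h3.trans h3'.symm)
      rw [← sub_div, abs_div, abs_of_pos (by positivity : 0 < r / 2),
        div_lt_one (by positivity)] at h6
      exact h6.le
    linarith
  · -- covering
    rintro y ⟨hy, ⟨_, ⟨ω, rfl⟩, rfl⟩⟩
    rw [Metric.mem_ball, dist_eq_norm, ← proj_sub] at hy
    have h1 := abs_hf_le hb (by linarith) (by linarith) (pt ω - pt ω₀)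
    have h2 := abs_gf_le hα (pt ω - pt ω₀)
    rw [hf_sub] at h1
    rw [gf_sub, ← hA] at h2
    have h3 : ∀ i < n, (ω i).2 = (ω₀ i).2 := by
      rcases hn with h | h
      · intro i hi; omega
      · apply agree hb0 hb1
        linarith
    have h4 : |gf α (pt ω) - gf α (pt ω₀)| ≤ A * R :=
      h2.trans (mul_le_mul_of_nonneg_left hy.le hA0.le)
    rw [abs_le] at h4
    have hr2 : 0 < r / 2 := by positivity
    rw [mem_iUnion₂]
    refine ⟨U (fun i => (ω (n + i)).2, ⌊gf α (pt ω) / (r / 2)⌋), ?_, ?_⟩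
    · rw [ht, Finset.mem_image]
      refine ⟨_, ?_, rfl⟩
      rw [Finset.mem_product, Finset.mem_Icc]
      refine ⟨Finset.mem_univ _, ?_, ?_⟩
      · rw [hj₀]
        apply Int.floor_le_floor
        rw [div_le_div_iff_of_pos_right hr2]
        linarith [h4.1]
      · rw [hj₁]
        apply Int.floor_le_floor
        rw [div_le_div_iff_of_pos_right hr2]
        linarith [h4.2]
    · rw [hU]
      exact ⟨ω, rfl, h3, fun i => rfl, rfl⟩
  · -- counting
    have hRr : 1 ≤ R / r := by rw [le_div_iff₀ hr0]; linarith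
    have h1 : (t.card : ℝ) ≤ 4 ^ (m - n) * ((Finset.Icc j₀ j₁).card : ℝ) := by
      have : t.card ≤ 4 ^ (m - n) * (Finset.Icc j₀ j₁).card := by
        rw [ht]
        refine Finset.card_image_le.trans (le_of_eq ?_)
        rw [Finset.card_product, Finset.card_univ, Fintype.card_fun, Fintype.card_prod,
          Fintype.card_fin, Fintype.card_fin]
      exact_mod_cast this
    have h2 : ((Finset.Icc j₀ j₁).card : ℝ) ≤ (4 * A + 2) * (R / r) := by
      rw [Int.card_Icc]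
      have hj1 : (j₁ : ℝ) ≤ (gf α (pt ω₀) + A * R) / (r / 2) := by rw [hj₁]; exact Int.floor_le _
      have hj0 : (gf α (pt ω₀) - A * R) / (r / 2) < j₀ + 1 := by
        rw [hj₀]; exact Int.lt_floor_add_one _
      have e : (gf α (pt ω₀) + A * R) / (r / 2) - (gf α (pt ω₀) - A * R) / (r / 2)
          = 4 * A * (R / r) := by
        field_simp
        ring
      have h3 : ((j₁ + 1 - j₀).toNat : ℝ) ≤ max ((j₁ : ℝ) + 1 - j₀) 0 := by
        have h4 : (((j₁ + 1 - j₀).toNat : ℤ) : ℝ) = ((max (j₁ + 1 - j₀) 0 : ℤ) : ℝ) := by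
          rw [Int.toNat_eq_max]
        have h5 : ((j₁ + 1 - j₀).toNat : ℝ) = (((j₁ + 1 - j₀).toNat : ℤ) : ℝ) :=
          (Int.cast_natCast _).symm
        rw [h5, h4]
        push_cast
        exact le_rfl
      refine h3.trans (max_le ?_ (by positivity))
      nlinarith
    have h3 : (R / r) ^ ((3 / 2 : ℝ≥0) : ℝ) = Real.sqrt (R / r) * (R / r) := by
      have e : ((3 / 2 : ℝ≥0) : ℝ) = 1 / 2 + 1 := by push_cast; norm_num
      rw [e, Real.rpow_add (by positivity), Real.rpow_one, ← Real.sqrt_eq_rpow]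
    rw [h3]
    have h4 : (0 : ℝ) ≤ ((Finset.Icc j₀ j₁).card : ℝ) := Nat.cast_nonneg _
    calc (t.card : ℝ) ≤ 4 ^ (m - n) * ((Finset.Icc j₀ j₁).card : ℝ) := h1
      _ ≤ (28 * Real.sqrt (R / r)) * ((4 * A + 2) * (R / r)) :=
          mul_le_mul hcount h2 h4 (by positivity)
      _ = _ := by ring

/-! ### The main theorem -/

lemma vs_const (c : ℝ) : (vs fun _ => c) = c / 15 := by
  unfold vs
  rw [tsum_mul_right, ts16]
  ring

lemma F_nondegenerate (l : E 3 →ₗ[ℝ] ℝ) (c : ℝ) (hl : l ≠ 0) : ¬ F ⊆ {x | l x = c} := by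
  intro h
  have h0 : l (pt fun _ => (0, 0, 0)) = c := h ⟨_, rfl⟩
  have e0 : (pt fun _ => ((0, 0, 0) : I)) = 0 := by
    ext j
    fin_cases j <;> simp [pt, av, bv, vs_const]
  rw [e0, map_zero] at h0
  apply hl
  apply (EuclideanSpace.basisFun (Fin 3) ℝ).toBasis.ext
  intro j
  have hj : ∃ i : I, (pt fun _ => i) = (1 / 15 : ℝ) • EuclideanSpace.single j (1 : ℝ) := by
    fin_cases j
    · refine ⟨(1, 0, 0), ?_⟩
      ext k
      fin_cases k <;> simp [pt, av, bv, vs_const]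
    · refine ⟨(0, 1, 0), ?_⟩
      ext k
      fin_cases k <;> simp [pt, av, bv, vs_const]
    · refine ⟨(0, 0, 1), ?_⟩
      ext k
      fin_cases k <;> simp [pt, av, bv, vs_const]
  obtain ⟨i, hi⟩ := hj
  have h1 : l (pt fun _ => i) = c := h ⟨_, rfl⟩
  rw [hi, map_smul, ← h0, smul_eq_mul] at h1
  simp only [OrthonormalBasis.coe_toBasis, EuclideanSpace.basisFun_apply, LinearMap.zero_apply]
  linarith

/-- The open set of directions. -/
def V : Set (Metric.sphere (0 : E 3) 1) :=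
  {w | 3 / 10 * (w : E 3) 2 < -(w : E 3) 1 ∧ -(w : E 3) 1 < 7 / 10 * (w : E 3) 2}

lemma V_open : IsOpen V := by
  have hc : ∀ j : Fin 3, Continuous fun w : Metric.sphere (0 : E 3) 1 => (w : E 3) j := fun j =>
    (PiLp.continuous_apply 2 _ j).comp continuous_subtype_val
  exact (isOpen_lt (continuous_const.mul (hc 2)) (hc 1).neg).inter
    (isOpen_lt (hc 1).neg (continuous_const.mul (hc 2)))

lemma V_nonempty : V.Nonempty := by
  refine ⟨⟨!₂[2 / 3, -(1 / 3), 2 / 3], ?_⟩, ?_, ?_⟩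
  · rw [mem_sphere_zero_iff_norm, EuclideanSpace.norm_eq, Fin.sum_univ_three]
    rw [Real.sqrt_eq_one]
    simp
    norm_num
  · simp
    norm_num
  · simp
    norm_num

lemma on_V {w : Metric.sphere (0 : E 3) 1} (hw : w ∈ V) : dimH (proj w '' F) ≤ 9 / 10 ∧
    1 ≤ dimA (proj w '' F) ∧ dimA (proj w '' F) ≤ 3 / 2 := by
  have hw2 : 0 < (w : E 3) 2 := by linarith [hw.1, hw.2]
  refine ⟨?_, ?_, ?_⟩
  · have hlip : LipschitzWith 1 (proj w) := LipschitzWith.of_dist_le_mul fun x y => by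
      rw [dist_eq_norm, dist_eq_norm, ← proj_sub, NNReal.coe_one, one_mul]
      exact norm_proj_le w _
    refine (hlip.dimH_image_le F).trans (dimH_F.trans (le_of_eq ?_))
    rw [ENNReal.ofReal_div_of_pos (by norm_num)]
    norm_num
  · refine le_iInf₂ fun s hs => ?_
    have : 1 ≤ s := by
      refine lower (fun h0 => ?_) hs
      obtain ⟨c, hc⟩ := exists_smul w e₁
      rw [h0, add_zero] at hc
      have h2 : (e₁ : E 3) 2 = c * (w : E 3) 2 := by rw [hc]; rfl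
      have h3 : (e₁ : E 3) 0 = c * (w : E 3) 0 := by rw [hc]; rfl
      have h4 : (e₁ : E 3) 2 = 0 := rfl
      have h5 : (e₁ : E 3) 0 = 1 := rfl
      rw [h4] at h2
      have h6 : c = 0 := by
        rcases mul_eq_zero.1 h2.symm with h | h
        · exact h
        · exact absurd h hw2.ne'
      rw [h5, h6, zero_mul] at h3
      exact one_ne_zero h3
    exact_mod_cast this
  · have h := upper (w := w) (α := (w : E 3) 0 / (w : E 3) 2) (b := -(w : E 3) 1 / (w : E 3) 2)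
      hw2.ne' (by field_simp) (by field_simp) (by rw [le_div_iff₀ hw2]; exact hw.1.le)
      (by rw [div_le_iff₀ hw2]; exact hw.2.le)
    refine (iInf₂_le (3 / 2 : ℝ≥0) h).trans (le_of_eq ?_)
    rw [ENNReal.coe_div (by norm_num)]
    norm_num

/-- **Theorem.** There is a self-similar set `F ⊆ [0, 1]³`, not contained in any affine plane,
and a nonempty open set `V` of unit vectors such that for every `w ∈ V` the orthogonal
projection of `F` to the plane `w^⊥` has Hausdorff dimension at most `9/10` and Assouad dimension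
in `[1, 3/2]`. Hence the set of planes (parametrized by the unit normal vector, with the surface
measure of the sphere) for which the Assouad dimension of the projection is neither `2` nor the
Hausdorff dimension of the projection has positive measure. -/
theorem result : ∃ F : Set (E 3), IsSelfSimilar 3 F ∧
    (∀ (l : E 3 →ₗ[ℝ] ℝ) (c : ℝ), l ≠ 0 → ¬ F ⊆ {x | l x = c}) ∧
    (∃ V : Set (Metric.sphere (0 : E 3) 1), IsOpen V ∧ V.Nonempty ∧ ∀ w ∈ V,
      dimH (proj w '' F) ≤ 9 / 10 ∧ 1 ≤ dimA (proj w '' F) ∧ dimA (proj w '' F) ≤ 3 / 2) ∧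
    0 < (volume : Measure (E 3)).toSphere
      {w | dimA (proj w '' F) ≠ 2 ∧ dimA (proj w '' F) ≠ dimH (proj w '' F)} := by
  refine ⟨F, F_selfSimilar, F_nondegenerate, ⟨V, V_open, V_nonempty, fun w hw => on_V hw⟩, ?_⟩
  refine lt_of_lt_of_le (V_open.measure_pos _ V_nonempty) (measure_mono fun w hw => ?_)
  obtain ⟨h1, h2, h3⟩ := on_V hw
  constructor
  · apply ne_of_lt
    refine lt_of_le_of_lt h3 ?_
    rw [ENNReal.div_lt_iff (by norm_num) (by norm_num)]
    norm_num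
  · apply ne_of_gt
    refine lt_of_le_of_lt h1 (lt_of_lt_of_le ?_ h2)
    rw [ENNReal.div_lt_iff (by norm_num) (by norm_num)]
    norm_num

end Pool.Agent.Results.MP_c72560_an.Projections
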